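import Pool.Agent.K1H53.CN.Row

/-!
Concentration of the logarithm of a partition function over a finite family of paths in an i.i.d.
environment.
-/

open MeasureTheory ProbabilityTheory Set Function

set_option linter.unusedSectionVars false

namespace Pool.Agent.K1H53.CN

variable {Ω : Type*} [MeasurableSpace Ω] {P : Measure Ω} [IsProbabilityMeasure P]
variable {X : Type*}

/-- the law of the rows -/
lemma law_rows {ω : ℕ → X → Ω → ℝ} (meas : ∀ i x, Measurable (ω i x))
    (indep : iIndepFun (fun s : ℕ × X => ω s.1 s.2) P) {μ : Measure ℝ} [IsProbabilityMeasure μ]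
    (hl : ∀ i x, P.map (ω i x) = μ) (n : ℕ) :
    P.map (fun a (i : Fin n) (x : X) => ω (i + 1) x a) =
      Measure.pi (fun _ : Fin n => Measure.infinitePi (fun _ : X => μ)) := by
  have hg : Injective (fun p : Fin n × X => (((p.1 : ℕ) + 1, p.2) : ℕ × X)) := by
    rintro ⟨i, x⟩ ⟨j, y⟩ hh
    simp only [Prod.mk.injEq] at hh
    ext
    · simp; omega
    · exact hh.2
  have h1 := indep.precomp hg
  have h2 := h1.map_fun_eq_infinitePi_map (fun s => meas _ _)
  have h3 : Measure.infinitePi (fun p : Fin n × X => P.map (ω ((p.1 : ℕ) + 1) p.2)) =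
      Measure.infinitePi (fun p : Fin n × X => (fun (_ : Fin n) (_ : X) => μ) p.1 p.2) := by
    congr 1
    ext1 p
    exact hl _ _
  have h4 : P.map (fun a (p : Fin n × X) => ω ((p.1 : ℕ) + 1) p.2 a) =
      Measure.infinitePi (fun p : Fin n × X => (fun (_ : Fin n) (_ : X) => μ) p.1 p.2) := by
    rw [← h3]
    exact h2
  have h5 := Measure.infinitePi_map_curry (fun (_ : Fin n) (_ : X) => μ)
  rw [← h4, Measure.map_map (MeasurableEquiv.measurable _)
    (measurable_pi_iff.2 fun p => meas _ _), Measure.infinitePi_eq_pi] at h5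
  exact h5

/-- free energy of a finite family of paths -/
noncomputable def FE {W : Type*} [Fintype W] {n : ℕ} (β : ℝ) (c : W → ℝ) (x : W → Fin n → X)
    (z : Fin n → X → ℝ) : ℝ := Real.log (∑ w, c w * Real.exp (β * ∑ i, z i (x w i)))

lemma measurable_FE {W : Type*} [Fintype W] {n : ℕ} (β : ℝ) (c : W → ℝ) (x : W → Fin n → X) :
    Measurable (FE β c x) := by
  unfold FE
  apply Real.measurable_log.comp
  apply Finset.measurable_sum
  intro w _
  apply Measurable.const_mul
  apply Real.measurable_exp.comp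
  apply Measurable.const_mul
  apply Finset.measurable_sum
  intro i _
  exact (measurable_pi_apply (x w i)).comp (measurable_pi_apply i)

/-- the site moments -/
noncomputable def KK (μ : Measure ℝ) (β : ℝ) : ℝ :=
  (∫ t, Real.exp (β * t) ∂μ) + ∫ t, Real.exp (-(β * t)) ∂μ

/-- the constant of the concentration inequality -/
noncomputable def CC (μ : Measure ℝ) (β : ℝ) : ℝ := 8 * KK μ β * Real.exp (KK μ β)

lemma KK_nonneg (μ : Measure ℝ) (β : ℝ) : 0 ≤ KK μ β :=
  add_nonneg (integral_nonneg fun _ => (Real.exp_pos _).le)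
    (integral_nonneg fun _ => (Real.exp_pos _).le)

lemma CC_nonneg (μ : Measure ℝ) (β : ℝ) : 0 ≤ CC μ β :=
  mul_nonneg (mul_nonneg (by norm_num) (KK_nonneg μ β)) (Real.exp_pos _).le

lemma integrable_abs_site {μ : Measure ℝ} (hexp : ∀ b : ℝ, Integrable (fun t => Real.exp (b * t)) μ) :
    Integrable (fun t : ℝ => |t|) μ := by
  have h1 := hexp 1
  have h2 := hexp (-1)
  simp only [one_mul, neg_mul] at h1 h2
  refine (h1.add h2).mono' (measurable_id.abs).aestronglyMeasurable
    (Filter.Eventually.of_forall (fun t => ?_))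
  simp only [Pi.add_apply, Real.norm_eq_abs, abs_abs]
  have e1 := Real.add_one_le_exp t
  have e2 := Real.add_one_le_exp (-t)
  have e3 := Real.exp_pos t
  have e4 := Real.exp_pos (-t)
  rcases abs_cases t with ⟨h, _⟩ | ⟨h, _⟩ <;> rw [h] <;> linarith

section product

variable {μ : Measure ℝ} [IsProbabilityMeasure μ] {W : Type*} [Fintype W] [Nonempty W]

/-- dominating function of a row -/
noncomputable def GG (β : ℝ) (B : Finset X) (y : X → ℝ) : ℝ := |β| * ∑ b ∈ B, |y b|

lemma integrable_GG (hexp : ∀ b : ℝ, Integrable (fun t => Real.exp (b * t)) μ) (β : ℝ)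
    (B : Finset X) : Integrable (GG β B) (Measure.infinitePi (fun _ : X => μ)) := by
  unfold GG
  apply Integrable.const_mul
  apply integrable_finsetSum
  intro b _
  have hm : MeasurePreserving (fun y : X → ℝ => y b) (Measure.infinitePi (fun _ : X => μ)) μ :=
    measurePreserving_eval_infinitePi (fun _ : X => μ) b
  exact hm.integrable_comp_of_integrable (g := fun t : ℝ => |t|) (integrable_abs_site hexp)

lemma FE_dom {n : ℕ} {β : ℝ} {c : W → ℝ} (hc : ∀ w, 0 < c w) (x : W → Fin n → X)
    {B : Finset X} (hB : ∀ w i, x w i ∈ B) (z : Fin n → X → ℝ) :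
    |FE β c x z| ≤ |Real.log (∑ w, c w)| + ∑ i, GG β B (z i) := by
  have hS : 0 < ∑ w, c w := Finset.sum_pos (fun w _ => hc w) Finset.univ_nonempty
  have hw : ∀ w, |β * ∑ i, z i (x w i)| ≤ ∑ i, GG β B (z i) := by
    intro w
    unfold GG
    rw [abs_mul, ← Finset.mul_sum]
    apply mul_le_mul_of_nonneg_left _ (abs_nonneg _)
    refine (Finset.abs_sum_le_sum_abs _ _).trans ?_
    apply Finset.sum_le_sum
    intro i _
    exact Finset.single_le_sum (f := fun b => |z i b|) (fun b _ => abs_nonneg _) (hB w i)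
  set G := ∑ i, GG β B (z i) with hG
  have up : ∑ w, c w * Real.exp (β * ∑ i, z i (x w i)) ≤ (∑ w, c w) * Real.exp G := by
    rw [Finset.sum_mul]
    apply Finset.sum_le_sum
    intro w _
    apply mul_le_mul_of_nonneg_left _ (hc w).le
    exact Real.exp_le_exp.2 ((le_abs_self _).trans (hw w))
  have lo : (∑ w, c w) * Real.exp (-G) ≤ ∑ w, c w * Real.exp (β * ∑ i, z i (x w i)) := by
    rw [Finset.sum_mul]
    apply Finset.sum_le_sum
    intro w _
    apply mul_le_mul_of_nonneg_left _ (hc w).le
    apply Real.exp_le_exp.2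
    have := neg_abs_le (β * ∑ i, z i (x w i))
    linarith [hw w]
  have hp : 0 < ∑ w, c w * Real.exp (β * ∑ i, z i (x w i)) :=
    Finset.sum_pos (fun w _ => mul_pos (hc w) (Real.exp_pos _)) Finset.univ_nonempty
  have u1 := Real.log_le_log hp up
  have l1 := Real.log_le_log (mul_pos hS (Real.exp_pos _)) lo
  rw [Real.log_mul hS.ne' (Real.exp_pos _).ne', Real.log_exp] at u1 l1
  unfold FE
  rw [abs_le]
  have a1 := le_abs_self (Real.log (∑ w, c w))
  have a2 := neg_abs_le (Real.log (∑ w, c w))
  constructor <;> linarith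

/-- exponential moments of a free energy in the product space -/
theorem FE_mgf (hexp : ∀ b : ℝ, Integrable (fun t => Real.exp (b * t)) μ) {n : ℕ} {β : ℝ}
    {c : W → ℝ} (hc : ∀ w, 0 < c w) (x : W → Fin n → X) {t : ℝ} (ht : |t| ≤ 1 / 2) :
    ∫⁻ z, ENNReal.ofReal (Real.exp (t * (FE β c x z - ∫ z', FE β c x z'
        ∂(Measure.pi fun _ : Fin n => Measure.infinitePi (fun _ : X => μ)))))
        ∂(Measure.pi fun _ : Fin n => Measure.infinitePi (fun _ : X => μ)) ≤
      ENNReal.ofReal (Real.exp (n * (CC μ β * t ^ 2))) := by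
  classical
  set ρ := Measure.infinitePi (fun _ : X => μ) with hρ
  set B : Finset X := Finset.univ.biUnion (fun w => Finset.univ.image (x w)) with hBd
  have hB : ∀ w i, x w i ∈ B := by
    intro w i
    rw [hBd, Finset.mem_biUnion]
    exact ⟨w, Finset.mem_univ _, Finset.mem_image_of_mem _ (Finset.mem_univ _)⟩
  have ev : ∀ b : X, MeasurePreserving (fun y : X → ℝ => y b) ρ μ := fun b =>
    measurePreserving_eval_infinitePi (fun _ : X => μ) b
  refine tens (G := GG β B) (integrable_GG hexp β B) (fun y => ?_) n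
    |Real.log (∑ w, c w)| (FE β c x) (measurable_FE β c x) (FE_dom hc x hB) ?_
  · exact mul_nonneg (abs_nonneg _) (Finset.sum_nonneg fun b _ => abs_nonneg _)
  intro i z
  set C : W → ℝ := fun w => c w * Real.exp (β * ∑ j ∈ Finset.univ.erase i, z j (x w j)) with hC
  have hCpos : ∀ w, 0 < C w := fun w => mul_pos (hc w) (Real.exp_pos _)
  set S := ∑ w, C w with hS
  have hSpos : 0 < S := Finset.sum_pos (fun w _ => hCpos w) Finset.univ_nonempty
  set κ : W → ℝ := fun w => C w / S with hκ
  have hκpos : ∀ w, 0 < κ w := fun w => div_pos (hCpos w) hSpos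
  have hκs : ∑ w, κ w = 1 := by
    rw [hκ, ← Finset.sum_div, div_self hSpos.ne']
  set a : W → (X → ℝ) → ℝ := fun w u => β * u (x w i) with ha
  have ma : ∀ w, Measurable (a w) := fun w => (measurable_pi_apply _).const_mul _
  have e0 : ∀ u, FE β c x (update z i u) = Real.log S + Real.log (∑ w, κ w * Real.exp (a w u)) := by
    intro u
    have hp : 0 < ∑ w, κ w * Real.exp (a w u) :=
      Finset.sum_pos (fun w _ => mul_pos (hκpos w) (Real.exp_pos _)) Finset.univ_nonempty
    rw [← Real.log_mul hSpos.ne' hp.ne']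
    unfold FE
    congr 1
    rw [Finset.mul_sum]
    apply Finset.sum_congr rfl
    intro w _
    have e1 : ∑ j, update z i u j (x w j) = u (x w i) +
        ∑ j ∈ Finset.univ.erase i, z j (x w j) := by
      rw [← Finset.add_sum_erase _ _ (Finset.mem_univ i), update_self]
      congr 1
      apply Finset.sum_congr rfl
      intro j hj
      rw [update_of_ne (Finset.ne_of_mem_erase hj)]
    rw [e1, mul_add, Real.exp_add, hκ, ha]
    simp only [hC]
    field_simp
  have i1 : ∀ w, Integrable (fun y => Real.exp (a w y)) ρ := by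
    intro w
    exact (ev (x w i)).integrable_comp_of_integrable (g := fun t : ℝ => Real.exp (β * t)) (hexp β)
  have i2 : ∀ w, Integrable (fun y => Real.exp (-a w y)) ρ := by
    intro w
    have h0 := (ev (x w i)).integrable_comp_of_integrable (g := fun t : ℝ => Real.exp (-β * t))
      (hexp (-β))
    refine h0.congr (Filter.Eventually.of_forall fun y => ?_)
    simp [ha]
  have hK : ∀ w, ∫ y, Real.exp (a w y) ∂ρ + ∫ y, Real.exp (-a w y) ∂ρ ≤ KK μ β := by
    intro w
    unfold KK
    have h1 : ∫ y, Real.exp (a w y) ∂ρ = ∫ t, Real.exp (β * t) ∂μ := by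
      rw [← (ev (x w i)).map_eq, integral_map (ev (x w i)).measurable.aemeasurable]
      · exact (Real.measurable_exp.comp (measurable_id.const_mul β)).aestronglyMeasurable
    have h2 : ∫ y, Real.exp (-a w y) ∂ρ = ∫ t, Real.exp (-(β * t)) ∂μ := by
      rw [← (ev (x w i)).map_eq, integral_map (ev (x w i)).measurable.aemeasurable]
      · exact (Real.measurable_exp.comp (measurable_id.const_mul β).neg).aestronglyMeasurable
    rw [h1, h2]
  obtain ⟨hint, hmain⟩ := row_mgf (ρ := ρ) hκpos hκs ma i1 i2 hK ht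
  have e2 : ∫ u', FE β c x (update z i u') ∂ρ = Real.log S +
      ∫ u', Real.log (∑ w, κ w * Real.exp (a w u')) ∂ρ := by
    simp_rw [e0]
    rw [integral_add (integrable_const _) hint]
    simp
  rw [e2]
  simp_rw [e0]
  simp only [add_sub_add_left_eq_sub]
  exact hmain

end product

variable {ω : ℕ → X → Ω → ℝ} {μ : Measure ℝ} [IsProbabilityMeasure μ]
variable {W : Type*} [Fintype W] [Nonempty W]

/-- the free energy of a family of paths over the sites of the rows `1..n` -/
noncomputable def LZ (ω : ℕ → X → Ω → ℝ) (β : ℝ) (c : W → ℝ) (n : ℕ) (x : W → ℕ → X) (a : Ω) : ℝ :=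
  Real.log (∑ w, c w * Real.exp (β * ∑ i ∈ Finset.range n, ω (i + 1) (x w i) a))

lemma LZ_eq (β : ℝ) (c : W → ℝ) (n : ℕ) (x : W → ℕ → X) (a : Ω) :
    LZ ω β c n x a = FE β c (fun w (i : Fin n) => x w i) (fun (i : Fin n) y => ω (i + 1) y a) := by
  unfold LZ FE
  congr 1
  apply Finset.sum_congr rfl
  intro w _
  rw [Finset.sum_range]

section main
variable (meas : ∀ i x, Measurable (ω i x)) (indep : iIndepFun (fun s : ℕ × X => ω s.1 s.2) P)
  (hl : ∀ i x, P.map (ω i x) = μ) (hexp : ∀ b : ℝ, Integrable (fun t => Real.exp (b * t)) μ)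
  {β : ℝ} {c : W → ℝ} (hc : ∀ w, 0 < c w) (n : ℕ) (x : W → ℕ → X)
include meas indep hl hexp hc

omit [IsProbabilityMeasure P] [Nonempty W] indep hl hexp hc [IsProbabilityMeasure μ] in
lemma measurable_LZ : Measurable (LZ ω β c n x) := by
  unfold LZ
  apply Real.measurable_log.comp
  apply Finset.measurable_sum
  intro w _
  apply Measurable.const_mul
  apply Real.measurable_exp.comp
  apply Measurable.const_mul
  apply Finset.measurable_sum
  intro i _
  exact meas _ _

/-- exponential moments of the free energy -/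
theorem LZ_mgf {t : ℝ} (ht : |t| ≤ 1 / 2) :
    ∫⁻ a, ENNReal.ofReal (Real.exp (t * (LZ ω β c n x a - ∫ a', LZ ω β c n x a' ∂P))) ∂P ≤
      ENNReal.ofReal (Real.exp (n * (CC μ β * t ^ 2))) := by
  set T : Ω → (Fin n → X → ℝ) := fun a i y => ω (i + 1) y a with hT
  have mT : Measurable T := by
    rw [measurable_pi_iff]; intro i
    rw [measurable_pi_iff]; intro y
    exact meas _ _
  have hlaw := law_rows meas indep hl n
  have hm : ∀ a, LZ ω β c n x a = FE β c (fun w (i : Fin n) => x w i) (T a) := fun a =>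
    LZ_eq β c n x a
  have hmF := measurable_FE β c (fun w (i : Fin n) => x w i)
  have e1 : ∫ a', LZ ω β c n x a' ∂P = ∫ z', FE β c (fun w (i : Fin n) => x w i) z'
      ∂(Measure.pi fun _ : Fin n => Measure.infinitePi (fun _ : X => μ)) := by
    rw [← hlaw, integral_map mT.aemeasurable hmF.aestronglyMeasurable]
    apply integral_congr_ae
    exact Filter.Eventually.of_forall fun a => hm a
  rw [e1]
  have h := FE_mgf (μ := μ) (β := β) hexp hc (fun w (i : Fin n) => x w i) ht
  set m := ∫ z', FE β c (fun w (i : Fin n) => x w i) z'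
      ∂(Measure.pi fun _ : Fin n => Measure.infinitePi (fun _ : X => μ)) with hmd
  have mh : Measurable (fun z => ENNReal.ofReal (Real.exp (t *
      (FE β c (fun w (i : Fin n) => x w i) z - m)))) :=
    (Real.measurable_exp.comp ((hmF.sub_const m).const_mul t)).ennreal_ofReal
  rw [← hlaw, lintegral_map mh mT] at h
  simp_rw [hm]
  exact h

/-- the free energy is integrable -/
theorem LZ_int : Integrable (LZ ω β c n x) P := by
  classical
  set B : Finset X := Finset.univ.biUnion (fun w => (Finset.range n).image (x w)) with hBd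
  have hB : ∀ w (i : Fin n), x w i ∈ B := by
    intro w i
    rw [hBd, Finset.mem_biUnion]
    exact ⟨w, Finset.mem_univ _, Finset.mem_image_of_mem _ (Finset.mem_range.2 i.2)⟩
  have isite : ∀ i y, Integrable (fun a => |ω i y a|) P := by
    intro i y
    have h0 := integrable_abs_site hexp
    rw [← hl i y] at h0
    exact h0.comp_measurable (meas i y)
  refine Integrable.mono' (g := fun a => |Real.log (∑ w, c w)| +
    ∑ i : Fin n, GG β B (fun y => ω (i + 1) y a)) ?_ (measurable_LZ meas n x).aestronglyMeasurable ?_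
  · apply (integrable_const _).add
    apply integrable_finsetSum
    intro i _
    unfold GG
    apply Integrable.const_mul
    apply integrable_finsetSum
    intro b _
    exact isite _ _
  · refine Filter.Eventually.of_forall fun a => ?_
    rw [Real.norm_eq_abs, LZ_eq]
    exact FE_dom hc _ hB _

/-- one sided deviations -/
theorem LZ_tail {t lam : ℝ} (ht : |t| ≤ 1 / 2) :
    P.real {a | |t| * lam ≤ t * (LZ ω β c n x a - ∫ a', LZ ω β c n x a' ∂P)} ≤
      Real.exp (-(|t| * lam) + n * (CC μ β * t ^ 2)) := by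
  set g : Ω → ENNReal := fun a =>
    ENNReal.ofReal (Real.exp (t * (LZ ω β c n x a - ∫ a', LZ ω β c n x a' ∂P))) with hg
  have mg : Measurable g :=
    (Real.measurable_exp.comp (((measurable_LZ meas n x).sub_const _).const_mul t)).ennreal_ofReal
  have h1 : {a | |t| * lam ≤ t * (LZ ω β c n x a - ∫ a', LZ ω β c n x a' ∂P)} ⊆
      {a | ENNReal.ofReal (Real.exp (|t| * lam)) ≤ g a} := by
    intro a ha
    exact ENNReal.ofReal_le_ofReal (Real.exp_le_exp.2 ha)
  have h2 := meas_ge_le_lintegral_div (μ := P) mg.aemeasurable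
    (ε := ENNReal.ofReal (Real.exp (|t| * lam)))
    (by rw [ne_eq, ENNReal.ofReal_eq_zero, not_le]; exact Real.exp_pos _) ENNReal.ofReal_ne_top
  have h3 : P {a | |t| * lam ≤ t * (LZ ω β c n x a - ∫ a', LZ ω β c n x a' ∂P)} ≤
      ENNReal.ofReal (Real.exp (-(|t| * lam) + n * (CC μ β * t ^ 2))) := by
    refine (measure_mono h1).trans (h2.trans ?_)
    refine (ENNReal.div_le_div_right (LZ_mgf meas indep hl hexp hc n x ht) _).trans ?_
    rw [← ENNReal.ofReal_div_of_pos (Real.exp_pos _), ← Real.exp_sub]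
    apply le_of_eq
    congr 2
    ring
  rw [measureReal_def]
  exact ENNReal.toReal_le_of_le_ofReal (Real.exp_pos _).le h3

/-- **concentration of free energies** -/
theorem LZ_conc {t lam : ℝ} (ht0 : 0 < t) (ht : t ≤ 1 / 2) :
    P.real {a | lam ≤ |LZ ω β c n x a - ∫ a', LZ ω β c n x a' ∂P|} ≤
      2 * Real.exp (-(t * lam) + n * (CC μ β * t ^ 2)) := by
  have h1 := LZ_tail meas indep hl hexp (β := β) hc n x (t := t) (lam := lam) (by rwa [abs_of_pos ht0])
  have h2 := LZ_tail meas indep hl hexp (β := β) hc n x (t := -t) (lam := lam)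
    (by rwa [abs_neg, abs_of_pos ht0])
  rw [abs_neg, abs_of_pos ht0, neg_sq] at h2
  rw [abs_of_pos ht0] at h1
  have hsub : {a | lam ≤ |LZ ω β c n x a - ∫ a', LZ ω β c n x a' ∂P|} ⊆
      {a | t * lam ≤ t * (LZ ω β c n x a - ∫ a', LZ ω β c n x a' ∂P)} ∪
      {a | t * lam ≤ -t * (LZ ω β c n x a - ∫ a', LZ ω β c n x a' ∂P)} := by
    intro a ha
    simp only [mem_union, mem_ofPred_eq] at ha ⊢
    rcases le_abs.1 ha with h | h
    · left; exact mul_le_mul_of_nonneg_left h ht0.le
    · right
      have := mul_le_mul_of_nonneg_left h ht0.le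
      linarith
  calc _ ≤ P.real ({a | t * lam ≤ t * (LZ ω β c n x a - ∫ a', LZ ω β c n x a' ∂P)} ∪
      {a | t * lam ≤ -t * (LZ ω β c n x a - ∫ a', LZ ω β c n x a' ∂P)}) :=
        measureReal_mono hsub
    _ ≤ _ := measureReal_union_le _ _
    _ ≤ _ := by linarith

end main

end Pool.Agent.K1H53.CN
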