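import Pool.Agent.K1H53.CN.Tens

/-!
Exponential moments of the logarithm of a mixture, and of the logarithm of a partition function.
-/

open MeasureTheory Set Function

namespace Pool.Agent.K1H53.CN

lemma exp_le_quad (s : ℝ) : Real.exp s ≤ 1 + s + s ^ 2 * Real.exp |s| := by
  have h := Complex.norm_exp_sub_sum_le_norm_mul_exp (s : ℂ) 2
  have e : Complex.exp (s : ℂ) - ∑ m ∈ Finset.range 2, (s : ℂ) ^ m / (m.factorial : ℂ) =
      ((Real.exp s - (1 + s) : ℝ) : ℂ) := by
    simp [Finset.sum_range_succ]
  rw [e, Complex.norm_real, Complex.norm_real, Real.norm_eq_abs, Real.norm_eq_abs, sq_abs] at h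
  have := le_abs_self (Real.exp s - (1 + s))
  linarith

lemma exp_tilt {t u : ℝ} (ht : |t| ≤ 1 / 2) :
    Real.exp (t * u) ≤ 1 + t * u + 8 * t ^ 2 * Real.exp |u| := by
  refine (exp_le_quad (t * u)).trans ?_
  have h1 : |t * u| ≤ |u| / 2 := by
    rw [abs_mul]
    nlinarith [abs_nonneg u]
  have h2 : Real.exp |t * u| ≤ Real.exp (|u| / 2) := Real.exp_le_exp.2 h1
  have h3 : u ^ 2 ≤ 8 * Real.exp (|u| / 2) := by
    have := Real.quadratic_le_exp_of_nonneg (show 0 ≤ |u| / 2 by positivity)
    have h4 : |u| ^ 2 = u ^ 2 := sq_abs u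
    nlinarith [abs_nonneg u]
  have h4 : Real.exp (|u| / 2) * Real.exp (|u| / 2) = Real.exp |u| := by
    rw [← Real.exp_add]; ring_nf
  have h5 : (t * u) ^ 2 * Real.exp |t * u| ≤ 8 * t ^ 2 * Real.exp |u| := by
    calc (t * u) ^ 2 * Real.exp |t * u| ≤ (t * u) ^ 2 * Real.exp (|u| / 2) :=
          mul_le_mul_of_nonneg_left h2 (sq_nonneg _)
      _ = t ^ 2 * (u ^ 2 * Real.exp (|u| / 2)) := by ring
      _ ≤ t ^ 2 * ((8 * Real.exp (|u| / 2)) * Real.exp (|u| / 2)) := by
          apply mul_le_mul_of_nonneg_left _ (sq_nonneg _)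
          exact mul_le_mul_of_nonneg_right h3 (Real.exp_pos _).le
      _ = 8 * t ^ 2 * Real.exp |u| := by rw [← h4]; ring
  linarith

variable {E : Type*} [MeasurableSpace E] {ρ : Measure E} [IsProbabilityMeasure ρ]
variable {W : Type*} [Fintype W] [Nonempty W]

/-- exponential moments of the logarithm of a mixture -/
theorem row_mgf {κ : W → ℝ} (hκ : ∀ w, 0 < κ w) (hs : ∑ w, κ w = 1) {a : W → E → ℝ}
    (ma : ∀ w, Measurable (a w)) {K : ℝ}
    (i1 : ∀ w, Integrable (fun y => Real.exp (a w y)) ρ)
    (i2 : ∀ w, Integrable (fun y => Real.exp (-a w y)) ρ)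
    (hK : ∀ w, ∫ y, Real.exp (a w y) ∂ρ + ∫ y, Real.exp (-a w y) ∂ρ ≤ K)
    {t : ℝ} (ht : |t| ≤ 1 / 2) :
    Integrable (fun y => Real.log (∑ w, κ w * Real.exp (a w y))) ρ ∧
    ∫⁻ y, ENNReal.ofReal (Real.exp (t * (Real.log (∑ w, κ w * Real.exp (a w y)) -
      ∫ y', Real.log (∑ w, κ w * Real.exp (a w y')) ∂ρ))) ∂ρ ≤
        ENNReal.ofReal (Real.exp (8 * K * Real.exp K * t ^ 2)) := by
  set S : E → ℝ := fun y => ∑ w, κ w * Real.exp (a w y) with hS
  set S' : E → ℝ := fun y => ∑ w, κ w * Real.exp (-a w y) with hS'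
  have Spos : ∀ y, 0 < S y := fun y => Finset.sum_pos (fun w _ => mul_pos (hκ w) (Real.exp_pos _))
    Finset.univ_nonempty
  set F : E → ℝ := fun y => Real.log (S y) with hF
  have mF : Measurable F := by
    apply Real.measurable_log.comp
    apply Finset.measurable_sum
    intro w _
    exact (Real.measurable_exp.comp (ma w)).const_mul _
  have iS : Integrable S ρ := integrable_finsetSum _ (fun w _ => (i1 w).const_mul _)
  have iS' : Integrable S' ρ := integrable_finsetSum _ (fun w _ => (i2 w).const_mul _)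
  -- `exp (-F) ≤ S'`
  have hinv : ∀ y, Real.exp (-F y) ≤ S' y := by
    intro y
    have c1 := convexOn_exp.map_sum_le (t := Finset.univ) (w := κ) (p := fun w => a w y)
      (fun w _ => (hκ w).le) hs (fun w _ => mem_univ _)
    have c2 := convexOn_exp.map_sum_le (t := Finset.univ) (w := κ) (p := fun w => -a w y)
      (fun w _ => (hκ w).le) hs (fun w _ => mem_univ _)
    simp only [smul_eq_mul, mul_neg, Finset.sum_neg_distrib] at c1 c2
    have c3 : Real.exp (-F y) = (S y)⁻¹ := by
      rw [Real.exp_neg, hF]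
      simp only
      rw [Real.exp_log (Spos y)]
    rw [c3]
    have c4 : (S y)⁻¹ ≤ (Real.exp (∑ w, κ w * a w y))⁻¹ :=
      inv_anti₀ (Real.exp_pos _) c1
    rw [← Real.exp_neg] at c4
    exact c4.trans c2
  have habs : ∀ y, Real.exp |F y| ≤ S y + S' y := by
    intro y
    have h1 : Real.exp (F y) = S y := Real.exp_log (Spos y)
    have h2 := hinv y
    rcases abs_cases (F y) with ⟨h, _⟩ | ⟨h, _⟩
    · rw [h, h1]
      have := (Real.exp_pos (-F y)).le.trans h2
      linarith
    · rw [h]
      have := (Spos y).le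
      linarith
  have iabs : Integrable (fun y => Real.exp |F y|) ρ := by
    refine (iS.add iS').mono' ?_ ?_
    · exact (Real.measurable_exp.comp (mF.abs)).aestronglyMeasurable
    · exact Filter.Eventually.of_forall fun y => by
        rw [Real.norm_eq_abs, abs_of_pos (Real.exp_pos _)]; exact habs y
  have hKS : ∫ y, S y ∂ρ + ∫ y, S' y ∂ρ ≤ K := by
    rw [hS, hS']
    simp only
    rw [integral_finsetSum _ (fun w _ => (i1 w).const_mul _),
      integral_finsetSum _ (fun w _ => (i2 w).const_mul _), ← Finset.sum_add_distrib]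
    calc ∑ w, (∫ y, κ w * Real.exp (a w y) ∂ρ + ∫ y, κ w * Real.exp (-a w y) ∂ρ)
        ≤ ∑ w, κ w * K := by
          apply Finset.sum_le_sum
          intro w _
          rw [integral_const_mul, integral_const_mul, ← mul_add]
          exact mul_le_mul_of_nonneg_left (hK w) (hκ w).le
      _ = K := by rw [← Finset.sum_mul, hs, one_mul]
  have hKabs : ∫ y, Real.exp |F y| ∂ρ ≤ K := by
    refine le_trans ?_ hKS
    rw [← integral_add iS iS']
    exact integral_mono iabs (iS.add iS') habs
  have hle : ∀ y, |F y| ≤ Real.exp |F y| := fun y => by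
    have := Real.add_one_le_exp |F y|
    linarith
  have iF : Integrable F ρ := by
    refine iabs.mono' mF.aestronglyMeasurable ?_
    exact Filter.Eventually.of_forall fun y => by rw [Real.norm_eq_abs]; exact hle y
  refine ⟨iF, ?_⟩
  set m := ∫ y, F y ∂ρ with hm
  have hmK : |m| ≤ K := by
    calc |m| ≤ ∫ y, |F y| ∂ρ := abs_integral_le_integral_abs
      _ ≤ ∫ y, Real.exp |F y| ∂ρ := integral_mono iF.abs iabs hle
      _ ≤ K := hKabs
  have hdiff : ∀ y, Real.exp |F y - m| ≤ Real.exp K * Real.exp |F y| := by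
    intro y
    rw [← Real.exp_add]
    apply Real.exp_le_exp.2
    have := abs_sub (F y) m
    linarith
  have idiff : Integrable (fun y => Real.exp |F y - m|) ρ := by
    refine (iabs.const_mul (Real.exp K)).mono' ?_ ?_
    · exact (Real.measurable_exp.comp ((mF.sub_const m).abs)).aestronglyMeasurable
    · exact Filter.Eventually.of_forall fun y => by
        rw [Real.norm_eq_abs, abs_of_pos (Real.exp_pos _)]; exact hdiff y
  have itilt : Integrable (fun y => Real.exp (t * (F y - m))) ρ := by
    refine idiff.mono' ?_ ?_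
    · exact (Real.measurable_exp.comp ((mF.sub_const m).const_mul t)).aestronglyMeasurable
    · refine Filter.Eventually.of_forall fun y => ?_
      rw [Real.norm_eq_abs, abs_of_pos (Real.exp_pos _)]
      apply Real.exp_le_exp.2
      calc t * (F y - m) ≤ |t * (F y - m)| := le_abs_self _
        _ = |t| * |F y - m| := abs_mul _ _
        _ ≤ 1 * |F y - m| := mul_le_mul_of_nonneg_right (by linarith) (abs_nonneg _)
        _ = |F y - m| := one_mul _
  rw [← ofReal_integral_eq_lintegral_ofReal itilt
    (Filter.Eventually.of_forall fun y => (Real.exp_pos _).le)]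
  apply ENNReal.ofReal_le_ofReal
  have ibd : Integrable (fun y => 1 + t * (F y - m) + 8 * t ^ 2 * Real.exp |F y - m|) ρ :=
    ((integrable_const _).add ((iF.sub (integrable_const _)).const_mul t)).add
      (idiff.const_mul _)
  have hK0 : 0 ≤ K := (abs_nonneg m).trans hmK
  calc ∫ y, Real.exp (t * (F y - m)) ∂ρ
      ≤ ∫ y, (1 + t * (F y - m) + 8 * t ^ 2 * Real.exp |F y - m|) ∂ρ :=
        integral_mono itilt ibd (fun y => exp_tilt ht)
    _ = 1 + 8 * t ^ 2 * ∫ y, Real.exp |F y - m| ∂ρ := by
        have s1 := integral_add (μ := ρ) ((integrable_const (1 : ℝ)).add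
          ((iF.sub (integrable_const m)).const_mul t)) (idiff.const_mul (8 * t ^ 2))
        have s2 := integral_add (μ := ρ) (integrable_const (1 : ℝ))
          ((iF.sub (integrable_const m)).const_mul t)
        simp only [Pi.add_apply, Pi.sub_apply] at s1 s2
        rw [s1, s2, integral_const_mul, integral_const_mul, integral_sub iF (integrable_const m)]
        simp only [integral_const, probReal_univ, smul_eq_mul, one_mul]
        rw [← hm, sub_self, mul_zero, add_zero]
    _ ≤ 1 + 8 * t ^ 2 * (Real.exp K * K) := by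
        have : ∫ y, Real.exp |F y - m| ∂ρ ≤ Real.exp K * K := by
          calc ∫ y, Real.exp |F y - m| ∂ρ ≤ ∫ y, Real.exp K * Real.exp |F y| ∂ρ :=
                integral_mono idiff (iabs.const_mul _) hdiff
            _ = Real.exp K * ∫ y, Real.exp |F y| ∂ρ := integral_const_mul _ _
            _ ≤ Real.exp K * K := mul_le_mul_of_nonneg_left hKabs (Real.exp_pos _).le
        have h8 : 0 ≤ 8 * t ^ 2 := by positivity
        have := mul_le_mul_of_nonneg_left this h8
        linarith
    _ ≤ Real.exp (8 * K * Real.exp K * t ^ 2) := by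
        have := Real.add_one_le_exp (8 * K * Real.exp K * t ^ 2)
        linarith

end Pool.Agent.K1H53.CN
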