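import Mathlib

/-!
Tensorisation of exponential moments over independent coordinates.
-/

open MeasureTheory Set Function

namespace Pool.Agent.K1H53.CN

variable {E : Type*} [MeasurableSpace E] {ρ : Measure E} [IsProbabilityMeasure ρ]

/-- Jensen's inequality for the exponential function, without integrability of the exponential -/
lemma jensen_exp {φ : E → ℝ} (hφ : Integrable φ ρ) :
    ENNReal.ofReal (Real.exp (∫ y, φ y ∂ρ)) ≤ ∫⁻ y, ENNReal.ofReal (Real.exp (φ y)) ∂ρ := by
  by_cases hfin : ∫⁻ y, ENNReal.ofReal (Real.exp (φ y)) ∂ρ = ⊤
  · rw [hfin]; exact le_top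
  have hm : AEStronglyMeasurable (fun y => Real.exp (φ y)) ρ :=
    Real.continuous_exp.comp_aestronglyMeasurable hφ.aestronglyMeasurable
  have hint : Integrable (fun y => Real.exp (φ y)) ρ := by
    refine ⟨hm, ?_⟩
    rw [hasFiniteIntegral_iff_norm]
    have : ∀ y, ENNReal.ofReal ‖Real.exp (φ y)‖ = ENNReal.ofReal (Real.exp (φ y)) := by
      intro y
      rw [Real.norm_eq_abs, abs_of_pos (Real.exp_pos _)]
    simp_rw [this]
    exact lt_top_iff_ne_top.2 hfin
  rw [← ofReal_integral_eq_lintegral_ofReal hint
    (Filter.Eventually.of_forall fun y => (Real.exp_pos _).le)]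
  apply ENNReal.ofReal_le_ofReal
  have h := convexOn_exp.map_integral_le (μ := ρ) (f := φ) Real.continuous_exp.continuousOn
    isClosed_univ (Filter.Eventually.of_forall fun y => mem_univ _) hφ hint
  exact h

lemma measurable_upd {n : ℕ} (z : Fin n → E) (i : Fin n) :
    Measurable (fun u : E => update z i u) := measurable_update z

theorem tens {G : E → ℝ} (hG : Integrable G ρ) (hG0 : ∀ y, 0 ≤ G y) {t c : ℝ} :
    ∀ (n : ℕ) (A : ℝ) (f : (Fin n → E) → ℝ), Measurable f → (∀ z, |f z| ≤ A + ∑ i, G (z i)) →
      (∀ i z, ∫⁻ u, ENNReal.ofReal (Real.exp (t * (f (update z i u) -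
        ∫ u', f (update z i u') ∂ρ))) ∂ρ ≤ ENNReal.ofReal (Real.exp c)) →
      ∫⁻ z, ENNReal.ofReal (Real.exp (t * (f z - ∫ z', f z' ∂(Measure.pi fun _ => ρ))))
        ∂(Measure.pi fun _ => ρ) ≤ ENNReal.ofReal (Real.exp (n * c)) := by
  intro n
  induction n with
  | zero =>
    intro A f _ _ _
    have h0 : ∀ z : Fin 0 → E, f z = f (fun i => i.elim0) := fun z => by
      congr 1
      exact Subsingleton.elim _ _
    have h1 : ∫ z', f z' ∂(Measure.pi fun _ : Fin 0 => ρ) = f (fun i => i.elim0) := by
      simp_rw [h0]
      simp
    rw [h1]
    simp_rw [h0]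
    simp
  | succ n ih =>
    intro A f hf hA hs
    set π := Measure.pi (fun _ : Fin n => ρ) with hπ
    set e := (MeasurableEquiv.piFinSuccAbove (fun _ : Fin (n + 1) => E) 0).symm with he
    have mp : MeasurePreserving e (ρ.prod π) (Measure.pi fun _ : Fin (n + 1) => ρ) :=
      (measurePreserving_piFinSuccAbove (fun _ : Fin (n + 1) => ρ) 0).symm
    have hec : ∀ (y : E) (z : Fin n → E), e (y, z) = Fin.cons y z := by
      intro y z
      rw [he, MeasurableEquiv.piFinSuccAbove_symm_apply]
      simp [Fin.insertNthEquiv]
    set F : E × (Fin n → E) → ℝ := fun p => f (e p) with hF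
    have mF : Measurable F := hf.comp e.measurable
    have hFc : ∀ y z, F (y, z) = f (Fin.cons y z) := fun y z => by rw [hF]; simp only; rw [hec]
    have hFA : ∀ y z, |F (y, z)| ≤ A + (G y + ∑ i, G (z i)) := by
      intro y z
      rw [hFc]
      refine (hA _).trans ?_
      rw [Fin.sum_univ_succ]
      simp
    -- slices
    have iy : ∀ z, Integrable (fun y => F (y, z)) ρ := by
      intro z
      refine Integrable.mono' (g := fun y => A + (G y + ∑ i, G (z i))) ?_ ?_ ?_
      · exact (integrable_const _).add (hG.add (integrable_const _))
      · exact (mF.comp (measurable_id.prodMk measurable_const)).aestronglyMeasurable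
      · exact Filter.Eventually.of_forall fun y => by rw [Real.norm_eq_abs]; exact hFA y z
    set g : (Fin n → E) → ℝ := fun z => ∫ y, F (y, z) ∂ρ with hg
    have mg : Measurable g := by
      have : StronglyMeasurable (uncurry fun (y : E) (z : Fin n → E) => F (y, z)) := by
        exact mF.stronglyMeasurable
      exact (this.integral_prod_left).measurable
    have gA : ∀ z, |g z| ≤ (A + ∫ y, G y ∂ρ) + ∑ i, G (z i) := by
      intro z
      calc |g z| ≤ ∫ y, |F (y, z)| ∂ρ := abs_integral_le_integral_abs
        _ ≤ ∫ y, (A + (G y + ∑ i, G (z i))) ∂ρ := by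
            apply integral_mono (iy z).abs
            · exact (integrable_const _).add (hG.add (integrable_const _))
            · exact fun y => hFA y z
        _ = (A + ∫ y, G y ∂ρ) + ∑ i, G (z i) := by
            have s1 := integral_add (μ := ρ) (integrable_const A)
              (hG.add (integrable_const (∑ i, G (z i))))
            have s2 := integral_add (μ := ρ) hG (integrable_const (∑ i, G (z i)))
            simp only [Pi.add_apply] at s1 s2
            rw [s1, s2]
            simp
            ring
    have iG : ∀ i : Fin n, Integrable (fun z : Fin n → E => G (z i)) π := fun i =>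
      (measurePreserving_eval (fun _ : Fin n => ρ) i).integrable_comp_of_integrable hG
    have iF : Integrable F (ρ.prod π) := by
      refine Integrable.mono' (g := fun p => A + (G p.1 + ∑ i, G (p.2 i))) ?_
        mF.aestronglyMeasurable ?_
      · refine (integrable_const _).add (Integrable.add ?_ ?_)
        · exact hG.comp_fst π
        · exact (integrable_finsetSum _ (fun i _ => iG i)).comp_snd ρ
      · exact Filter.Eventually.of_forall fun p => by rw [Real.norm_eq_abs]; exact hFA p.1 p.2
    have hm : ∫ z', f z' ∂(Measure.pi fun _ : Fin (n + 1) => ρ) = ∫ z, g z ∂π := by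
      rw [← mp.integral_comp']
      exact integral_prod_symm F iF
    -- bound of the slices of `g`
    have hsg : ∀ i z, ∫⁻ u, ENNReal.ofReal (Real.exp (t * (g (update z i u) -
        ∫ u', g (update z i u') ∂ρ))) ∂ρ ≤ ENNReal.ofReal (Real.exp c) := by
      intro i z
      have mU : Measurable (fun p : E × E => F (p.2, update z i p.1)) :=
        mF.comp (measurable_snd.prodMk ((measurable_upd z i).comp measurable_fst))
      have hUA : ∀ u y, |F (y, update z i u)| ≤ A + (G y + (G u + ∑ j, G (z j))) := by
        intro u y
        refine (hFA _ _).trans ?_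
        have : ∑ j, G (update z i u j) ≤ G u + ∑ j, G (z j) := by
          rw [← Finset.add_sum_erase _ _ (Finset.mem_univ i), update_self]
          have h1 : ∑ j ∈ Finset.univ.erase i, G (update z i u j) =
              ∑ j ∈ Finset.univ.erase i, G (z j) := by
            apply Finset.sum_congr rfl
            intro j hj
            rw [update_of_ne (Finset.ne_of_mem_erase hj)]
          rw [h1]
          have h2 : ∑ j ∈ Finset.univ.erase i, G (z j) ≤ ∑ j, G (z j) :=
            Finset.sum_le_sum_of_subset_of_nonneg (Finset.erase_subset _ _)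
              (fun j _ _ => hG0 _)
          linarith
        linarith
      have iU : Integrable (fun p : E × E => F (p.2, update z i p.1)) (ρ.prod ρ) := by
        refine Integrable.mono' (g := fun p : E × E => A + (G p.2 + (G p.1 + ∑ j, G (z j)))) ?_
          mU.aestronglyMeasurable ?_
        · exact (integrable_const _).add ((hG.comp_snd ρ).add
            ((hG.comp_fst ρ).add (integrable_const _)))
        · exact Filter.Eventually.of_forall fun p => by
            rw [Real.norm_eq_abs]; exact hUA p.1 p.2
      have hsw : ∫ u', g (update z i u') ∂ρ = ∫ y, ∫ u', F (y, update z i u') ∂ρ ∂ρ :=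
        integral_integral_swap (f := fun u' y => F (y, update z i u')) iU
      have iW : Integrable (fun y => ∫ u', F (y, update z i u') ∂ρ) ρ := iU.integral_prod_right
      have e1 : ∀ u, t * (g (update z i u) - ∫ u', g (update z i u') ∂ρ) =
          ∫ y, t * (F (y, update z i u) - ∫ u', F (y, update z i u') ∂ρ) ∂ρ := by
        intro u
        rw [integral_const_mul, integral_sub (iy _) iW, hsw]
      calc ∫⁻ u, ENNReal.ofReal (Real.exp (t * (g (update z i u) -
            ∫ u', g (update z i u') ∂ρ))) ∂ρ
          ≤ ∫⁻ u, ∫⁻ y, ENNReal.ofReal (Real.exp (t * (F (y, update z i u) -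
            ∫ u', F (y, update z i u') ∂ρ))) ∂ρ ∂ρ := by
            apply lintegral_mono
            intro u
            simp only
            rw [e1 u]
            exact jensen_exp (((iy _).sub iW).const_mul t)
        _ = ∫⁻ y, ∫⁻ u, ENNReal.ofReal (Real.exp (t * (F (y, update z i u) -
            ∫ u', F (y, update z i u') ∂ρ))) ∂ρ ∂ρ := by
            apply lintegral_lintegral_swap
            have mW : Measurable (fun y => ∫ u', F (y, update z i u') ∂ρ) := by
              have : StronglyMeasurable (uncurry fun (u : E) (y : E) => F (y, update z i u)) :=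
                mU.stronglyMeasurable
              exact (this.integral_prod_left).measurable
            exact (Real.measurable_exp.comp ((mU.sub (mW.comp measurable_snd)).const_mul
              t)).ennreal_ofReal.aemeasurable
        _ ≤ ∫⁻ y, ENNReal.ofReal (Real.exp c) ∂ρ := by
            apply lintegral_mono
            intro y
            have := hs i.succ (Fin.cons y z)
            simp only
            simp_rw [hFc, Fin.cons_update]
            exact this
        _ = ENNReal.ofReal (Real.exp c) := by simp
    have hrec := ih (A + ∫ y, G y ∂ρ) g mg gA hsg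
    rw [hm]
    set m := ∫ z, g z ∂π with hmd
    calc ∫⁻ z, ENNReal.ofReal (Real.exp (t * (f z - m))) ∂(Measure.pi fun _ => ρ)
        = ∫⁻ p, ENNReal.ofReal (Real.exp (t * (F p - m))) ∂(ρ.prod π) := by
          rw [← mp.lintegral_comp_emb e.measurableEmbedding]
      _ = ∫⁻ z, ∫⁻ y, ENNReal.ofReal (Real.exp (t * (F (y, z) - m))) ∂ρ ∂π := by
          rw [lintegral_prod_symm']
          exact (Real.measurable_exp.comp ((mF.sub_const m).const_mul t)).ennreal_ofReal
      _ ≤ ∫⁻ z, ENNReal.ofReal (Real.exp (t * (g z - m))) * ENNReal.ofReal (Real.exp c) ∂π := by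
          apply lintegral_mono
          intro z
          simp only
          have e2 : ∀ y, ENNReal.ofReal (Real.exp (t * (F (y, z) - m))) =
              ENNReal.ofReal (Real.exp (t * (g z - m))) *
                ENNReal.ofReal (Real.exp (t * (F (y, z) - g z))) := by
            intro y
            rw [← ENNReal.ofReal_mul (Real.exp_pos _).le, ← Real.exp_add]
            congr 2
            ring
          simp_rw [e2]
          have mz : Measurable (fun y => ENNReal.ofReal (Real.exp (t * (F (y, z) - g z)))) :=
            (Real.measurable_exp.comp (((mF.comp (measurable_id.prodMk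
              measurable_const)).sub_const _).const_mul t)).ennreal_ofReal
          rw [lintegral_const_mul _ mz]
          apply mul_le_mul_right
          obtain ⟨y0⟩ : Nonempty E := nonempty_of_isProbabilityMeasure ρ
          have := hs 0 (Fin.cons y0 z)
          simp_rw [Fin.update_cons_zero] at this
          simp_rw [hg, hFc]
          exact this
      _ = (∫⁻ z, ENNReal.ofReal (Real.exp (t * (g z - m))) ∂π) * ENNReal.ofReal (Real.exp c) := by
          rw [lintegral_mul_const]
          exact (Real.measurable_exp.comp ((mg.sub_const m).const_mul t)).ennreal_ofReal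
      _ ≤ ENNReal.ofReal (Real.exp (n * c)) * ENNReal.ofReal (Real.exp c) :=
          mul_le_mul_left hrec _
      _ = ENNReal.ofReal (Real.exp (((n + 1 : ℕ) : ℝ) * c)) := by
          rw [← ENNReal.ofReal_mul (Real.exp_pos _).le, ← Real.exp_add]
          congr 2
          push_cast
          ring

end Pool.Agent.K1H53.CN
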